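import Pool.Agent.Y957.VK.Stm

/-!
# Project VK: zero free region for all heights up to T (job VK-INV)
-/

set_option autoImplicit false

namespace Pool.Agent.Y569.VK

open Pool.Agent.Y957.VK Filter Topology

theorem zeta1_eq {s : ℂ} (hs : s ≠ 1) : riemannZeta₁ s = (s - 1) * riemannZeta s := by
  have h1 : s - 1 ≠ 0 := sub_ne_zero.2 hs
  rw [riemannZeta_eq_inv_sub_mul hs]
  field_simp

theorem zeta1_ne {s : ℂ} (hs : 1 ≤ s.re) : riemannZeta₁ s ≠ 0 := by
  by_cases h : s = 1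
  · rw [h, riemannZeta₁_one]
    exact one_ne_zero
  · rw [zeta1_eq h]
    exact mul_ne_zero (sub_ne_zero.2 h) (riemannZeta_ne_zero_of_one_le_re hs)

theorem low (t₀ : ℝ) : ∃ η B : ℝ, 0 < η ∧ ∀ s : ℂ, |s.im| ≤ t₀ → 1 - η ≤ s.re → s.re ≤ 2 →
    riemannZeta₁ s ≠ 0 ∧ ‖(s - 1) / riemannZeta₁ s‖ ≤ B := by
  have hcont : Continuous riemannZeta₁ := differentiable_riemannZeta₁.continuous
  have hη : ∃ η : ℝ, 0 < η ∧ ∀ s : ℂ, |s.im| ≤ t₀ → 1 - η ≤ s.re → s.re ≤ 2 →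
      riemannZeta₁ s ≠ 0 := by
    let Q : Set ℂ := Set.Icc (0 : ℝ) 2 ×ℂ Set.Icc (-t₀) t₀
    have hQ : IsCompact Q := isCompact_Icc.reProdIm isCompact_Icc
    let Z : Set ℂ := Q ∩ riemannZeta₁ ⁻¹' {0}
    have hZ : IsCompact Z := hQ.inter_right (isClosed_singleton.preimage hcont)
    by_cases hne : Z.Nonempty
    · obtain ⟨z, hz, hmax⟩ := hZ.exists_isMaxOn hne (Complex.continuous_re.continuousOn)
      have hz1 : z.re < 1 := by
        by_contra hcon
        exact zeta1_ne (not_lt.1 hcon) hz.2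
      refine ⟨min 1 ((1 - z.re) / 2), lt_min one_pos (by linarith), ?_⟩
      intro s h1 h2 h3 h4
      have h5 := min_le_left 1 ((1 - z.re) / 2)
      have h6 := min_le_right 1 ((1 - z.re) / 2)
      have hsZ : s ∈ Z := by
        refine ⟨⟨⟨?_, h3⟩, ?_⟩, h4⟩
        · linarith
        · exact abs_le.1 h1
      have h7 : s.re ≤ z.re := hmax hsZ
      linarith
    · refine ⟨1, one_pos, ?_⟩
      intro s h1 h2 h3 h4
      apply hne
      refine ⟨s, ⟨⟨?_, h3⟩, ?_⟩, h4⟩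
      · linarith
      · exact abs_le.1 h1
  obtain ⟨η, hη0, hη1⟩ := hη
  let Q' : Set ℂ := Set.Icc (1 - η) 2 ×ℂ Set.Icc (-t₀) t₀
  have hQ' : IsCompact Q' := isCompact_Icc.reProdIm isCompact_Icc
  have hc : ContinuousOn (fun s : ℂ => (s - 1) / riemannZeta₁ s) Q' := by
    apply ContinuousOn.div
    · exact (continuous_id.sub continuous_const).continuousOn
    · exact hcont.continuousOn
    · intro s hs
      exact hη1 s (abs_le.2 hs.2) hs.1.1 hs.1.2
  obtain ⟨B, hB⟩ := hQ'.exists_bound_of_continuousOn hc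
  refine ⟨η, B, hη0, fun s h1 h2 h3 => ⟨hη1 s h1 h2 h3, hB s ⟨⟨h2, h3⟩, abs_le.1 h1⟩⟩⟩

theorem inv (h : S_ZF) : S_INV := by
  obtain ⟨δ, K, t₀, hδ0, hδ1, hK, ht₀, hZF⟩ := h
  obtain ⟨η, B, hη, hlow⟩ := low t₀
  have hlog : Tendsto Real.log atTop atTop := Real.tendsto_log_atTop
  have e1 : ∀ᶠ T : ℝ in atTop, (Real.log T) ^ (δ - 1) ≤ η := by
    have h1 : Tendsto (fun x : ℝ => x ^ (-(1 - δ))) atTop (𝓝 0) :=
      tendsto_rpow_neg_atTop (by linarith)
    have h2 := h1.comp hlog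
    have h3 : ∀ᶠ T : ℝ in atTop, ((fun x : ℝ => x ^ (-(1 - δ))) ∘ Real.log) T < η :=
      h2.eventually (gt_mem_nhds hη)
    filter_upwards [h3] with T hT
    have : δ - 1 = -(1 - δ) := by ring
    rw [this]
    exact hT.le
  have e2 : ∀ᶠ T : ℝ in atTop, B ≤ (Real.log T) ^ K := by
    have h1 : Tendsto (fun x : ℝ => x ^ K) atTop atTop := tendsto_rpow_atTop (by linarith)
    exact (h1.comp hlog).eventually_ge_atTop B
  have e3 : ∀ᶠ T : ℝ in atTop, 3 ≤ T := eventually_ge_atTop 3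
  obtain ⟨T₀, hT₀⟩ := eventually_atTop.1 (e1.and (e2.and e3))
  refine ⟨δ, K, T₀, hδ0, hδ1, hK, (hT₀ T₀ le_rfl).2.2, ?_⟩
  intro T s hT him hre1 hre2
  obtain ⟨f1, f2, f3⟩ := hT₀ T hT
  rcases le_or_gt |s.im| t₀ with hs | hs
  · obtain ⟨g1, g2⟩ := hlow s hs (by linarith) hre2
    exact ⟨g1, g2.trans f2⟩
  · have him3 : 3 < |s.im| := lt_of_le_of_lt ht₀ hs
    have hlim : 0 < Real.log |s.im| := Real.log_pos (by linarith)
    have hlle : Real.log |s.im| ≤ Real.log T := Real.log_le_log (by linarith) him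
    have hpow : (Real.log T) ^ (δ - 1) ≤ (Real.log |s.im|) ^ (δ - 1) :=
      Real.rpow_le_rpow_of_nonpos hlim hlle (by linarith)
    obtain ⟨g1, g2⟩ := hZF s.re s.im hs.le (by linarith) hre2
    have hs1 : s ≠ 1 := by
      rintro rfl
      simp at him3
      linarith
    have hsub : s - 1 ≠ 0 := sub_ne_zero.2 hs1
    refine ⟨?_, ?_⟩
    · rw [zeta1_eq hs1]
      exact mul_ne_zero hsub g1
    · have h5 : (s - 1) / riemannZeta₁ s = (riemannZeta s)⁻¹ := by
        have g1' : riemannZeta s ≠ 0 := g1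
        rw [zeta1_eq hs1]
        field_simp
      rw [h5]
      refine g2.trans ?_
      exact Real.rpow_le_rpow hlim.le hlle (by linarith)

end Pool.Agent.Y569.VK
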